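import Pool.Agent.Run7.h560.AUT.Main

set_option autoImplicit false

/-!
# Prime-free intervals of record length around the elements of automatic sets

A set of integers is automatic when a finite automaton decides from the digits of `n` in some base
`b` whether `n` belongs to it.  (1) A syndetic automatic set has an element in `(X, X + X ^ ε]` without
primes within `κ log X (log₂ X)² log₄ X / (log₃ X)²`, for all large `X`: all integers so close to it
even have a proper prime factor `≤ X ^ ε`.  (2) An automatic set of positive upper Banach density has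
infinitely many such elements.  Nothing else is assumed of the automaton.

Proof.  Let `u` be a word whose map `U` on the states has minimal rank.  The maps `U ∘ (word)` permute
the image `I` of `U`.  Call a vector `φ` on `I` an obstruction with frequency `x` when the transforms of
`φ` by all words `w` of equal length differ only by the factors `e (-x w)`; the frequencies lie in
`(1 / D) ℤ` by the pigeonhole principle, and the span of the obstructions is invariant.  On its
orthogonal complement a compactness argument (nested compact sets, strict convexity) gives a length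
`M` such that the twisted sums over the words of length `M` are contractions, uniformly in the
frequency; words `u w u` transport this to all states.  So the exponential sums over the words leading
from one state to another save a power, uniformly in the frequency, up to geometric sums with ratios
`e (θ - x)`, `x ∈ (1 / D) ℤ`.  The sum of `D` consecutive translates kills the frequencies in
`(1 / D) ℤ`, and the covering sieve of the starting files does the rest.
From Mathlib: `DFA ℕ σ`: the deterministic automata with the set of states `σ` and the alphabet `ℕ`;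
`A.accepts`: the set of the words accepted by `A`; `Nat.digits b n`: the digits of `n` in base `b`, from
the least significant to the most significant one.
-/

namespace Pool.Agent.Results.MP_c853c5_nt.AutomaticSets

open Filter Pool.Agent.Run7.h560.AUT

/-- the transition map of the states `σ → σ` when a less significant digit is added -/
def dl {σ : Type} (A : DFA ℕ σ) (f : σ → σ) (d : ℕ) : σ → σ := fun q => f (A.step q d)

/-- the map of the digits of `n` -/
def sm {σ : Type} (b : ℕ) (A : DFA ℕ σ) (n : ℕ) : σ → σ := fun q => A.evalFrom q (Nat.digits b n)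

lemma run_sm {σ : Type} (b : ℕ) (hb : 2 ≤ b) (A : DFA ℕ σ) : Run b (dl A) (sm b A) := by
  intro n d hn hd
  funext q
  unfold sm dl
  rw [add_comm, Nat.digits_add b (by omega) d n hd (Or.inr (by omega)), DFA.evalFrom_cons]

lemma mem_iff {σ : Type} (b : ℕ) (A : DFA ℕ σ) (n : ℕ) :
    Nat.digits b n ∈ A.accepts ↔ sm b A n ∈ {f : σ → σ | f A.start ∈ A.accept} := Iff.rfl

/-- **Record prime-free neighbourhoods of the elements of automatic sets.** -/
theorem result (b : ℕ) (hb : 2 ≤ b) (σ : Type) [Finite σ] (A : DFA ℕ σ) (ε : ℝ) (hε : 0 < ε) :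
    (∀ g : ℕ, (∀ m : ℕ, ∃ a : ℕ, m ≤ a ∧ a < m + g ∧ Nat.digits b a ∈ A.accepts) →
      ∃ κ : ℝ, 0 < κ ∧ ∃ X₀ : ℝ, ∀ X : ℝ, X₀ ≤ X →
        ∃ n : ℕ, X < n ∧ (n : ℝ) ≤ X + X ^ ε ∧ Nat.digits b n ∈ A.accepts ∧
          ∀ m : ℤ, |(m : ℝ) - n| ≤ κ * (Real.log X * (Real.log (Real.log X)) ^ 2 *
              Real.log (Real.log (Real.log (Real.log X))) /
                (Real.log (Real.log (Real.log X))) ^ 2) →
            ∃ p : ℕ, p.Prime ∧ (p : ℝ) ≤ X ^ ε ∧ (p : ℤ) ∣ m ∧ (p : ℤ) < m) ∧
    (∀ c : ℝ, 0 < c → (∀ ℓ₀ : ℕ, ∃ ℓ : ℕ, ℓ₀ ≤ ℓ ∧ ∃ m : ℕ,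
        c * ℓ ≤ {a : ℕ | m ≤ a ∧ a < m + ℓ ∧ Nat.digits b a ∈ A.accepts}.ncard) →
      ∃ κ : ℝ, 0 < κ ∧ ∀ N : ℕ, ∃ n : ℕ, N ≤ n ∧ Nat.digits b n ∈ A.accepts ∧
        ∀ m : ℤ, |(m : ℝ) - n| ≤ κ * (Real.log n * (Real.log (Real.log n)) ^ 2 *
            Real.log (Real.log (Real.log (Real.log n))) /
              (Real.log (Real.log (Real.log n))) ^ 2) →
          ∃ p : ℕ, p.Prime ∧ (p : ℝ) ≤ (n : ℝ) ^ ε ∧ (p : ℤ) ∣ m ∧ (p : ℤ) < m) := by
  have hε' : 0 < min ε 1 := by positivity
  constructor
  · intro g hg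
    obtain ⟨κ, hκ, h⟩ := syndetic b hb (dl A) (sm b A) (run_sm b hb A)
      {f : σ → σ | f A.start ∈ A.accept} g (fun m => by
        obtain ⟨a, h1, h2, h3⟩ := hg m
        exact ⟨a, h1, h2, (mem_iff b A a).1 h3⟩) (min ε 1) hε' (min_le_right _ _)
    obtain ⟨X₀, hX₀⟩ := eventually_atTop.1 h
    refine ⟨κ, hκ, max X₀ 1, fun X hX => ?_⟩
    obtain ⟨n, h1, h2, h3, h4⟩ := hX₀ X ((le_max_left _ _).trans hX)
    have hle : X ^ (min ε 1) ≤ X ^ ε :=
      Real.rpow_le_rpow_of_exponent_le ((le_max_right _ _).trans hX) (min_le_left _ _)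
    refine ⟨n, h1, by linarith, (mem_iff b A n).2 h3, fun m hm => ?_⟩
    obtain ⟨p, hp1, hp2, hp3, hp4⟩ := h4 m hm
    exact ⟨p, hp1, hp2.trans hle, hp3, hp4⟩
  · intro c hc hd
    obtain ⟨κ, hκ, h⟩ := banach b hb (dl A) (sm b A) (run_sm b hb A)
      {f : σ → σ | f A.start ∈ A.accept} c hc (fun ℓ₀ => by
        obtain ⟨ℓ, h1, m, h2⟩ := hd ℓ₀
        have hfin : {a : ℕ | m ≤ a ∧ a < m + ℓ ∧ Nat.digits b a ∈ A.accepts}.Finite :=
          (Set.finite_Ico m (m + ℓ)).subset (fun a ha => ⟨ha.1, ha.2.1⟩)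
        refine ⟨ℓ, h1, m, hfin.toFinset, fun a ha => ?_, ?_⟩
        · have := hfin.mem_toFinset.1 ha
          exact ⟨this.1, this.2.1, (mem_iff b A a).1 this.2.2⟩
        · rwa [← Set.ncard_eq_toFinset_card _ hfin]) (min ε 1) hε' (min_le_right _ _)
    refine ⟨κ, hκ, fun N => ?_⟩
    obtain ⟨n, h1, h3, h4⟩ := h (max N 1)
    have hn1 : (1 : ℝ) ≤ n := by exact_mod_cast (le_max_right _ _).trans h1
    have hle : (n : ℝ) ^ (min ε 1) ≤ (n : ℝ) ^ ε :=
      Real.rpow_le_rpow_of_exponent_le hn1 (min_le_left _ _)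
    refine ⟨n, (le_max_left _ _).trans h1, (mem_iff b A n).2 h3, fun m hm => ?_⟩
    obtain ⟨p, hp1, hp2, hp3, hp4⟩ := h4 m hm
    exact ⟨p, hp1, hp2.trans hle, hp3, hp4⟩

end Pool.Agent.Results.MP_c853c5_nt.AutomaticSets
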