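import Pool.Agent.Run7.h931.EX.Prof

/-!
# The extreme numbers of primes in perturbed intervals of length `λ log² N`

By Cramér's model the intervals `n + 1, ..., n + m` with `m = λ log² N` and `n ≤ N` contain at most `(x + o(1)) log N` and at least
`(y + o(1)) log N` primes, where `x > λ > y` are the solutions of `x log (x / λ) - x + λ = 1` (`y = 0` if `λ < 1`); the order
of magnitude of the shortest intervals which all contain a prime is the transition at `λ = 1`. Here the shifts `1, ..., m` are
replaced by `s 0, ..., s (m - 1)`, where every `s j` runs through a window `(b j, b j + q]` of its own (for instance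
consecutive windows), and the law holds for almost all choices, with the number of the `n ≤ N` at every level in between.

Method: second moments of the number of the `n` weighted by `z ^ (number of primes)` and truncated at the level which is typical
for this weight. The pairs `n`, `n'` contribute the exponential of `λ (z - 1)² (S - 1)` with the singular series `S` of the pairs
of primes, so that one needs all exponential moments of the singular series, with the constant `1 + o(1)`; the shifts which are not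
prime to the product `W` of the small primes are left out of the weights, and `n` is taken from the multiples of `W`.
-/

set_option autoImplicit false

namespace Pool.Agent.Results.MP_c853c5_nt.PerturbedIntervals

open Finset

/-- The number of the primes among `n + s 0, ..., n + s (m - 1)`. -/
def primes {m : ℕ} (s : Fin m → ℕ) (n : ℕ) : ℕ := (univ.filter fun j => (n + s j).Prime).card

/-- The largest of the numbers `primes s n`, `1 ≤ n ≤ N`. -/
def most {m : ℕ} (N : ℕ) (s : Fin m → ℕ) : ℕ := (Icc 1 N).sup (primes s)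

/-- The smallest of the numbers `primes s n`, `1 ≤ n ≤ N`. -/
noncomputable def least {m : ℕ} (N : ℕ) (s : Fin m → ℕ) : ℕ := sInf (primes s '' Set.Icc 1 N)

/-- Cramér's rate `x log (x / l) - x + l`. It is `0` for `x = l`, decreases for `0 ≤ x ≤ l` and increases for `x ≥ l`. -/
noncomputable def rate (l x : ℝ) : ℝ := x * Real.log (x / l) - x + l

/-- The vectors of shifts: `s j` is in the window `(b j, b j + q]`. There are `q ^ m` of them. -/
def shifts {m : ℕ} (q : ℕ) (b : Fin m → ℕ) : Finset (Fin m → ℕ) := Fintype.piFinset fun j => Ioc (b j) (b j + q)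

open Classical in
/-- Let `T`, `a`, `Λ ≥ 1` and `0 < ε ≤ 1` be given. For all large `N`, all `N / log^a N ≤ q ≤ N`, all `m = l log² N` with
`1 / Λ ≤ l ≤ Λ` and all windows `(b j, b j + q]`, `j < m`, with `b j ≤ T N`, each of the following holds for all but at most
`ε q^m` of the `q^m` vectors `s` of shifts `s j ∈ (b j, b j + q]`.

**(1)** The largest number `M` of primes among `n + s 0, ..., n + s (m - 1)`, `1 ≤ n ≤ N`, is at least `l log N`, and
`|rate l (M / log N) - 1| ≤ ε`.

**(2)** If `l ≥ 1 + ε`, then the smallest number `M` of primes is at most `l log N`, and `|rate l (M / log N) - 1| ≤ ε`.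

**(3)** For all real numbers `x` between `l / Λ` and `Λ l`: the number of the `1 ≤ n ≤ N` with at least `x log N` primes (if
`x ≥ l`) or at most `x log N` primes (if `x ≤ l`) among `n + s 0, ..., n + s (m - 1)` is at most `N^(1 - rate l x + ε)`, and it
is at least `N^(1 - rate l x - ε)` if `rate l x ≤ 1 - ε`. -/
theorem result (T a : ℕ) (Λ ε : ℝ) (hΛ : 1 ≤ Λ) (hε : 0 < ε) (hε1 : ε ≤ 1) : ∃ N₀ : ℕ, ∀ N : ℕ, N₀ ≤ N → ∀ q : ℕ,
    (N : ℝ) ≤ q * Real.log N ^ a → q ≤ N → ∀ (m : ℕ) (b : Fin m → ℕ), (∀ j, b j ≤ T * N) → ∀ l : ℝ, (m : ℝ) = l * Real.log N ^ 2 →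
      1 / Λ ≤ l → l ≤ Λ →
        (((shifts q b).filter fun s => ¬ (l * Real.log N ≤ most N s ∧ |rate l (most N s / Real.log N) - 1| ≤ ε)).card : ℝ) ≤
          ε * (q : ℝ) ^ m ∧
        (1 + ε ≤ l →
          (((shifts q b).filter fun s => ¬ ((least N s : ℝ) ≤ l * Real.log N ∧
            |rate l (least N s / Real.log N) - 1| ≤ ε)).card : ℝ) ≤ ε * (q : ℝ) ^ m) ∧
        (((shifts q b).filter fun s => ¬ ∀ x : ℝ, l / Λ ≤ x → x ≤ Λ * l →
          (l ≤ x →
            (((Icc 1 N).filter fun n => x * Real.log N ≤ primes s n).card : ℝ) ≤ (N : ℝ) ^ (1 - rate l x + ε) ∧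
            (rate l x ≤ 1 - ε →
              (N : ℝ) ^ (1 - rate l x - ε) ≤ (((Icc 1 N).filter fun n => x * Real.log N ≤ primes s n).card : ℝ))) ∧
          (x ≤ l →
            (((Icc 1 N).filter fun n => (primes s n : ℝ) ≤ x * Real.log N).card : ℝ) ≤ (N : ℝ) ^ (1 - rate l x + ε) ∧
            (rate l x ≤ 1 - ε →
              (N : ℝ) ^ (1 - rate l x - ε) ≤ (((Icc 1 N).filter fun n => (primes s n : ℝ) ≤ x * Real.log N).card : ℝ)))).card : ℝ) ≤
          ε * (q : ℝ) ^ m := by
  obtain ⟨n0, h⟩ := Filter.eventually_atTop.1 ((Pool.Agent.Run7.h931.EX.maxlaw T a Λ ε hΛ hε hε1).and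
    ((Pool.Agent.Run7.h931.EX.minlaw T a Λ ε hΛ hε hε1).and (Pool.Agent.Run7.h931.EX.prof T a Λ ε hΛ hε hε1)))
  refine ⟨max n0 3, fun N hN q hq hqN m b hb l hm hl1 hl2 => ?_⟩
  obtain ⟨g1, g2, g3⟩ := h N ((le_max_left _ _).trans hN)
  have hN3 : 3 ≤ N := (le_max_right _ _).trans hN
  have hN3r : (3 : ℝ) ≤ N := by exact_mod_cast hN3
  obtain ⟨L, hL⟩ : ∃ L, L = Real.log (N : ℝ) := ⟨_, rfl⟩
  have hL0 : 0 < L := by rw [hL]; exact Real.log_pos (by linarith)
  have hl0 : 0 < l := lt_of_lt_of_le (by positivity) hl1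
  have hLm : L ^ 2 ≤ Λ * m := by
    rw [hm, ← hL]
    rw [div_le_iff₀ (by linarith)] at hl1
    have : 0 ≤ L ^ 2 := by positivity
    nlinarith
  have hmL : (m : ℝ) ≤ Λ * L ^ 2 := by
    rw [hm, ← hL]
    exact mul_le_mul_of_nonneg_right hl2 (by positivity)
  have hA : Pool.Agent.Run7.h931.EX.Adm T a Λ N q m b := by
    refine ⟨hq, hqN, hb, ?_, ?_⟩
    · rw [← hL]; exact hLm
    · rw [← hL]; exact hmL
  have k1 := g1 q m b hA
  have k2 := g2 q m b hA
  have k3 := g3 q m b hA
  have hm0 : (0 : ℝ) < m := by rw [hm, ← hL]; positivity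
  rw [← hL] at hm k1 k2 ⊢
  have hrate : ∀ x : ℝ, rate l x = m / L ^ 2 * Pool.Agent.Run7.h931.EX.ent (x / l) := by
    intro x
    have : (m : ℝ) / L ^ 2 = l := by rw [hm]; field_simp
    rw [this]
    unfold rate Pool.Agent.Run7.h931.EX.ent
    field_simp
  have hml : (m : ℝ) / L = l * L := by rw [hm]; field_simp
  have hxl : ∀ x : ℝ, x / L / l = x * L / m := by
    intro x
    rw [hm]
    field_simp
  refine ⟨?_, ?_, ?_⟩
  · refine le_trans (le_of_eq ?_) k1
    norm_cast
    apply congrArg
    apply filter_congr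
    intro s _
    rw [hrate, hxl, hml]
    exact Iff.rfl
  · intro hl
    refine le_trans (le_of_eq ?_) (k2 (by rw [hm]; exact mul_le_mul_of_nonneg_right hl (by positivity)))
    norm_cast
    apply congrArg
    apply filter_congr
    intro s _
    rw [hrate, hxl, hml]
    exact Iff.rfl
  · refine le_trans ?_ k3
    apply Nat.cast_le.2
    apply card_le_card
    intro s hs
    rw [mem_filter] at hs ⊢
    refine ⟨hs.1, fun h => hs.2 fun x hx1 hx2 => ?_⟩
    have hz1 : 1 / Λ ≤ x / l := by
      rw [div_le_div_iff₀ (by linarith) hl0]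
      rw [div_le_iff₀ (by linarith)] at hx1
      linarith
    have hz2 : x / l ≤ Λ := by
      rw [div_le_iff₀ hl0]
      exact hx2
    obtain ⟨a1, a2⟩ := h (x / l) hz1 hz2
    have hxm : x / l * m / L = x * L := by
      rw [hm]
      field_simp
    unfold Pool.Agent.Run7.h931.EX.Hi at a1
    unfold Pool.Agent.Run7.h931.EX.Lo at a2
    rw [← hL, hxm, ← hrate x] at a1 a2
    refine ⟨fun hx => ?_, fun hx => ?_⟩
    · obtain ⟨b1, b2⟩ := a1 (by rw [le_div_iff₀ hl0]; linarith)
      exact ⟨b2, b1⟩
    · obtain ⟨b1, b2⟩ := a2 (by rw [div_le_iff₀ hl0]; linarith)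
      exact ⟨b2, b1⟩

end Pool.Agent.Results.MP_c853c5_nt.PerturbedIntervals
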