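import Pool.Agent.Run7.h844.RP.K.Kc853c5

/-!
# The distance to the next prime on almost all translates of arbitrary sets by the members of arbitrary real families with small exponential sums

Method: a discrete Fejér kernel for the passage from real numbers to their integer parts, and a kernel estimate for the
concentration on short intervals which needs only the large frequencies; the fixed exponent `V` comes from a compactness
argument (library `Pool.Agent.Run7.h844.RP`, after `Pool.Agent.N384.MQ`, `Pool.Agent.N193.PS`). The passage from such exponential sums to sums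
with arbitrary coefficients is from the starting files (`Pool.Agent.N625.DY.cls_one`), the passage to all lengths and the
proportion `1/4` (Selberg's upper bound function over short intervals) is `Pool.Agent.Run7.h794.WN`, after
`Pool.Agent.W301.SS`, `Pool.Agent.TH646.TT`.

The families may be very thin: the condition on the exponential sums concerns only the frequencies up to a power of the
logarithm; it is invariant under translations of the family.
-/

set_option autoImplicit false

namespace Pool.Agent.Results.MP_c853c5_nt.RealFamilies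

open Finset

/-- The exponential sums of the real numbers `y i`, `i ∈ s`, are small at the frequencies `0 < |t| ≤ log ^ V N`: at most
`#s (log ^ B N / (|t| N) ^ δ + 1 / log ^ V N)`. -/
def SmallSums {ι : Type} (B : ℕ) (δ : ℝ) (V N : ℕ) (s : Finset ι) (y : ι → ℝ) : Prop :=
  ∀ t : ℝ, t ≠ 0 → |t| ≤ Real.log N ^ V →
    ‖∑ i ∈ s, Complex.exp (((2 * Real.pi * (t * y i) : ℝ) : ℂ) * Complex.I)‖ ≤
      s.card * (Real.log N ^ B * (|t| * N) ^ (-δ) + 1 / Real.log N ^ V)

/-- The number of the primes in `(n, n + y]`. -/
def primesIn (n y : ℕ) : ℕ := ((Ioc n (n + y)).filter Nat.Prime).card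

/-- The quantity of the problem: the least prime greater than `n`, minus `n`. -/
noncomputable def g (n : ℕ) : ℕ := sInf {h : ℕ | 0 < h ∧ (n + h).Prime}

open Classical in
/-- For all integers `y` with `log ^ K N ≤ y ≤ N` the average of `primesIn (a + b) y` over the `a ∈ A` differs from `y / log N` by
at most `ε y / log N`, and at least `(1 / 4 - ε) |A|` elements `a` of `A` have `g (a + b) ≤ y`, and even at least
`ε y / log N` primes in `(a + b, a + b + y]`. -/
def Good (ε : ℝ) (K N : ℕ) (A : Finset ℕ) (b : ℕ) : Prop :=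
  ∀ y : ℕ, Real.log N ^ K ≤ y → y ≤ N →
    |(∑ a ∈ A, (primesIn (a + b) y : ℝ)) * Real.log N - A.card * y| ≤ ε * (A.card * y) ∧
    (1 / 4 - ε) * A.card ≤
      ((A.filter fun a => g (a + b) ≤ y ∧ ε * y ≤ (primesIn (a + b) y : ℝ) * Real.log N).card : ℝ)

/-- `Good` for all the sets `A 1, ..., A J` and for all the integers `1 ≤ b ≤ N` with `x ≤ b ≤ x + R`. -/
def AllGood (ε : ℝ) (K N J : ℕ) (A : Fin J → Finset ℕ) (R x : ℝ) : Prop :=
  ∀ b : ℕ, 1 ≤ b → b ≤ N → x ≤ b → (b : ℝ) ≤ x + R → ∀ l, Good ε K N (A l) b

open Classical in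
/-- Let `B`, `0 < δ ≤ 1`, `C`, `T`, `W`, `U`, `a` and `0 < ε ≤ 1 / 4` be fixed. There are numbers `V` and `K` such that the
following holds for all large `N`. Let `A 1, ..., A J`, `J ≤ log ^ T N`, be ARBITRARY sets of at least `N / log ^ C N` integers
in `[1, N]`, let `3 ≤ M ≤ N ≤ M log ^ a N`, and let `y i`, `i ∈ s`, be ANY finite family of real numbers in `[0, M]` whose
exponential sums at the frequencies `0 < |t| ≤ log ^ V M` are at most `#s (log ^ B M / (|t| M) ^ δ + 1 / log ^ V M)`. Then all
the `i ∈ s`, with at most `#s / log ^ U N` exceptions, have the following property: for ALL the integers `1 ≤ b ≤ N` with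
`y i ≤ b ≤ y i + log ^ W N`, for all `l` and for ALL integers `y` with `log ^ K N ≤ y ≤ N`: the average over `a ∈ A l` of the
number of the primes in `(a + b, a + b + y]` differs from `y / log N` by at most `ε y / log N`, and at least
`(1 / 4 - ε) |A l|` elements `a` of `A l` satisfy `g (a + b) ≤ y` (for instance `g (a + b) ≤ log ^ K N + 1`), and have
even at least `ε y / log N` primes in `(a + b, a + b + y]`. -/
theorem result (B : ℕ) (δ : ℝ) (hδ : 0 < δ) (hδ1 : δ ≤ 1) (C T W U a : ℕ) (ε : ℝ) (hε : 0 < ε) (hε1 : ε ≤ 1 / 4) :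
    ∃ V K N₀ : ℕ, ∀ N : ℕ, N₀ ≤ N → ∀ (J : ℕ) (A : Fin J → Finset ℕ), (J : ℝ) ≤ Real.log N ^ T →
      (∀ l, A l ⊆ Icc 1 N) → (∀ l, N / Real.log N ^ C ≤ ((A l).card : ℝ)) →
      ∀ M : ℕ, 3 ≤ M → M ≤ N → (N : ℝ) ≤ M * Real.log N ^ a →
      ∀ (ι : Type) (s : Finset ι) (y : ι → ℝ), (∀ i ∈ s, 0 ≤ y i ∧ y i ≤ M) → SmallSums B δ V M s y →
      ((s.filter fun i => ¬ AllGood ε K N J A (Real.log N ^ W) (y i)).card : ℝ) ≤ s.card / Real.log N ^ U :=
  Pool.Agent.Run7.h844.RP.Kc853c5.key B δ hδ hδ1 C T W U a ε hε hε1

end Pool.Agent.Results.MP_c853c5_nt.RealFamilies
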