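import Pool.Agent.Run7.h794.MK.Spa
import Pool.Agent.N384.MQ.Ex
import Pool.Agent.N384.MQ.Quot

/-!
# Primes in sparse windows inside short intervals, for almost all integers

Instead of the interval `(n, n + h)` we ask for a prime in `n + S`, where `S` is a very thin set of integers in an interval of
length `q ≥ N ^ (1 / 3) log ^ C N`; `S` may have only a power of `log N` elements. If the Fourier coefficients of `S` modulo `q` are
small then for all but `N / log ^ U N` of the integers `n ≤ N` the window `n + S` has the expected number of primes, and so have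
all the windows `j n + c + κ S`, `1 ≤ j ≤ log ^ T N`, `0 < |κ| ≤ log ^ T N`, `|c| ≤ log ^ T N`, at the same time.

From Mathlib: `ZMod.stdAddChar`: the additive character `j ↦ exp (2 π i j / q)` of the integers modulo `q`; `ZMod.val`: the
least residue.

Main ingredients (all proved in the repository): the primes with additive characters of small denominators in almost all
intervals of length `x ^ (1 / 3) log ^ C x` (project CR: Heath-Brown's identity, mean values of Dirichlet polynomials, zeros of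
`L`-functions), Gallagher's lemma on the major arcs, sparse windows in mean square (project MK: helper880, helper931,
helper18, helper794).
-/

set_option autoImplicit false

namespace Pool.Agent.Results.MP_c853c5_nt.SparseWindows

open Finset

/-- The Fourier coefficients of the residues `y i`, `i ∈ s`, modulo `q` at the nonzero frequencies are at most
`η` times the number of the residues: `|∑ i ∈ s, e(h y_i / q)| ≤ η |s|` for all `h ≠ 0` modulo `q`. -/
def Flat {ι : Type} (q : ℕ) [NeZero q] (η : ℝ) (s : Finset ι) (y : ι → ZMod q) : Prop :=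
  ∀ h : ZMod q, h ≠ 0 → ‖∑ i ∈ s, (ZMod.stdAddChar (h * y i) : ℂ)‖ ≤ η * s.card

open Classical in
/-- The number of the `i ∈ s` for which the integer `m + κ y_i` is a (positive) prime, with the least residues
`0 ≤ y_i < q`. -/
noncomputable def primesIn {ι : Type} {q : ℕ} (s : Finset ι) (y : ι → ZMod q) (κ m : ℤ) : ℕ :=
  (s.filter fun i => (m + κ * ((y i).val : ℕ)).toNat.Prime).card

/-- `|κ| / φ(|κ|)` -/
noncomputable def dens (κ : ℤ) : ℝ := κ.natAbs / (Nat.totient κ.natAbs : ℝ)

/-- **(1)** Let `T`, `U` and `ε > 0` be fixed. There are `V`, `C`, `W` such that the following holds for all large `N`, all `q` with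
`N ^ (1 / 3) log ^ C N ≤ q ≤ N / log ^ W N` and all finite nonempty families of residues `y i`, `i ∈ s`, modulo `q` whose Fourier
coefficients at the nonzero frequencies are at most `|s| / log ^ V q`. For all integers `1 ≤ n ≤ N` with at most `N / log ^ U N`
exceptions and for ALL integers `j, κ, c` with `1 ≤ j ≤ log ^ T N`, `0 < |κ| ≤ log ^ T N`, `|c| ≤ log ^ T N` for which
`j n + c` and `κ` are coprime, the number of the primes among the integers `j n + c + κ y_i`, `i ∈ s`, is
`(1 ± ε) (|κ| / φ(|κ|)) |s| / log N`.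

**(2)**, **(3)** Examples. The condition on the Fourier coefficients holds modulo all large primes `p` for:
* the quotients `j / r` of the integers `0 ≤ j < S` by the primes `r ≤ R`, if `log ^ (V + 4) p ≤ R < p` and `R ^ 2 ≤ S`; thus
  there are such explicit sets with only `log ^ (3 V + 12) p` members;
* the cosets of all subgroups of the multiplicative group of an order of at least `p ^ (3/8) log ^ (3 V + 1) p`;
* the residues `a b + g(a) + k(b)`, `a ∈ A`, `b ∈ B`, for arbitrary sets with `|A| |B| ≥ p log ^ (2 V) p` and arbitrary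
  functions `g` and `k`;
* the values `f(n)`, `0 ≤ n < x`, of all integer polynomials of degree `d` whose leading coefficient is not divisible by
  `p`, if `x ^ d ≥ p log ^ C p`, where `C` depends on `d` and `V`. -/
theorem result :
    (∀ (T U : ℕ) (ε : ℝ), 0 < ε → ∃ V C W N₀ : ℕ, ∀ N : ℕ, N₀ ≤ N →
      ∀ (q : ℕ) [NeZero q], (N : ℝ) ^ (1 / 3 : ℝ) * Real.log N ^ C ≤ q → (q : ℝ) * Real.log N ^ W ≤ N →
      ∀ {ι : Type} (s : Finset ι) (y : ι → ZMod q), s.Nonempty → Flat q (1 / Real.log q ^ V) s y →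
      ∃ E : Finset ℕ, (E.card : ℝ) ≤ N / Real.log N ^ U ∧ ∀ n : ℕ, 1 ≤ n → n ≤ N → n ∉ E →
        ∀ j κ c : ℤ, 1 ≤ j → (j : ℝ) ≤ Real.log N ^ T → κ ≠ 0 → |(κ : ℝ)| ≤ Real.log N ^ T →
          |(c : ℝ)| ≤ Real.log N ^ T → IsCoprime (j * n + c) κ →
          |(primesIn s y κ (j * n + c) : ℝ) - dens κ * (s.card / Real.log N)| ≤ ε * (dens κ * (s.card / Real.log N))) ∧
    (∀ V : ℕ, ∃ P₀ : ℕ, ∀ p : ℕ, P₀ ≤ p → ∀ [Fact p.Prime],
      (∀ R S : ℕ, Real.log p ^ (V + 4) ≤ R → R < p → R ^ 2 ≤ S →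
        Flat p (1 / Real.log p ^ V) (((Icc 1 R).filter Nat.Prime) ×ˢ range S)
          (fun z => ((z.2 : ℕ) : ZMod p) * ((z.1 : ℕ) : ZMod p)⁻¹)) ∧
      (∀ (H : Subgroup (ZMod p)ˣ) (s : Finset (ZMod p)ˣ), (∀ u, u ∈ s ↔ u ∈ H) →
        (p : ℝ) ^ (3 / 8 : ℝ) * Real.log p ^ (3 * V + 1) ≤ s.card → ∀ x : ZMod p, x ≠ 0 →
        Flat p (1 / Real.log p ^ V) s (fun u => x * (u : ZMod p))) ∧
      (∀ (A B : Finset (ZMod p)) (g k : ZMod p → ZMod p), (p : ℝ) * Real.log p ^ (2 * V) ≤ A.card * B.card →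
        Flat p (1 / Real.log p ^ V) (A ×ˢ B) (fun z => z.1 * z.2 + g z.1 + k z.2))) ∧
    (∀ d V : ℕ, 1 ≤ d → ∃ C P₀ : ℕ, ∀ p : ℕ, P₀ ≤ p → ∀ [Fact p.Prime] (f : Polynomial ℤ), f.natDegree = d →
      ¬ (p : ℤ) ∣ f.leadingCoeff → ∀ x : ℕ, (p : ℝ) * Real.log p ^ C ≤ (x : ℝ) ^ d →
      Flat p (1 / Real.log p ^ V) (range x) (fun n => ((f.eval (n : ℤ) : ℤ) : ZMod p))) := by
  refine ⟨fun T U ε hε => ?_, fun V => ?_, fun d V hd => ?_⟩
  · obtain ⟨V, C, W, N₀, h⟩ := Pool.Agent.Run7.h794.MK.sparse_all Pool.Agent.Run7.h931.MK.t31 T U ε hε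
    obtain ⟨N₁, h1⟩ := Pool.Agent.Run7.h794.MK.flat_log V
    refine ⟨V + 1, C, W, N₀ + N₁, fun N hN q _ hq1 hq2 ι s y hs hf => ?_⟩
    obtain ⟨E, hE1, hE2⟩ := h N (by omega) q hq1 hq2 s y hs (h1 N (by omega) q C hq1 s y hf)
    refine ⟨E, hE1, fun n hn1 hn2 hnE j κ c hj hjT hκ hκT hcT hcop => ?_⟩
    have hj' : ((j.toNat : ℕ) : ℤ) = j := Int.toNat_of_nonneg (by omega)
    have h2 := hE2 n hn1 hn2 hnE j.toNat κ c (by omega) (by
      have : ((j.toNat : ℕ) : ℝ) = (j : ℝ) := by exact_mod_cast hj'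
      rw [this]; exact hjT) hκ hκT hcT (by rw [hj']; exact hcop)
    rw [hj'] at h2
    unfold primesIn dens
    convert h2
  · obtain ⟨P₁, h1⟩ := Pool.Agent.N384.MQ.flat_quot V
    obtain ⟨P₂, h2⟩ := Pool.Agent.N384.MQ.flat_coset V
    obtain ⟨P₃, h3⟩ := Pool.Agent.N384.MQ.flat_prod V
    exact ⟨P₁ + P₂ + P₃, fun p hp _ => ⟨fun R S => h1 p (by omega) R S, fun H s => h2 p (by omega) H s,
      fun A B g k => h3 p (by omega) A B g k⟩⟩
  · exact Pool.Agent.N384.MQ.flat_poly d V hd

end Pool.Agent.Results.MP_c853c5_nt.SparseWindows
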